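import Pool.Agent.Work.MP_898d8d_co.PartDefs
import Pool.Agent.Lib.PRank.MainA
import Pool.Agent.Lib.PRank.Slot
import Pool.Agent.Lib.PRank.Lattice
import Pool.Agent.Lib.PRank.Bridge

namespace Pool.Agent.Work.MP_898d8d_co

open Pool.Agent.Lib.PRank

universe u

/-- Local-to-global principle for partition rank in one slot, over every field. -/
theorem gen_of_local_all (D : ℕ) : ∃ L C : ℕ, 1 ≤ L ∧ 1 ≤ C ∧ ∀ (ι V J : Type) (F : Type u)
    [Fintype ι] [DecidableEq ι] [Nonempty ι] [Fintype V] [Fintype J] [Field F] (sl : V → ι),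
    Fintype.card ι = D → ∀ T : J → MvPolynomial V F, (∀ j, IsML sl Finset.univ (T j)) →
    ∀ s : ℕ, 1 ≤ s → (∀ U : Fin (L * s) → J, Gen sl s (fun i => T (U i))) → Gen sl (C * s) T := by
  obtain ⟨C, hC, hA⟩ := gen_of_arle D
  refine ⟨8 * (64 * D + 3), C * (4 * D * 4 ^ D) + 1, by omega, by omega, ?_⟩
  intro ι V J F _ _ _ _ _ _ sl hD T hT s hs h
  subst hD
  rcases finite_or_infinite F with hF | hF
  · let e : Shrink.{0} F ≃+* F := (equivShrink.{0} F).symm.ringEquiv
    have : Finite (Shrink.{0} F) := Finite.of_equiv _ e.symm.toEquiv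
    have : Infinite (RatFunc (Shrink.{0} F)) := Infinite.of_injective _
      (IsFractionRing.injective (Polynomial (Shrink.{0} F)) (RatFunc (Shrink.{0} F)))
    have h0 : ∀ j, IsML sl Finset.univ (MvPolynomial.map (e.symm : F →+* Shrink.{0} F) (T j)) :=
      fun j => (hT j).map _
    have h1 := gen_of_local (E := RatFunc (Shrink.{0} F)) (sl := sl)
      (T := fun j => MvPolynomial.map (algebraMap (Shrink.{0} F) (RatFunc (Shrink.{0} F)))
        (MvPolynomial.map (e.symm : F →+* Shrink.{0} F) (T j))) (fun j => (h0 j).map _) hs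
      fun U => ((h U).map _).map _
    have h2 := (hA ι V J (Shrink.{0} F) sl rfl _ h0 _ (arle_of_gen_ratFunc _ h1)).map
      (e : Shrink.{0} F →+* F)
    simp only [MvPolynomial.map_map, RingEquiv.comp_symm, MvPolynomial.map_id] at h2
    exact h2.mono (by rw [← mul_assoc]; exact Nat.mul_le_mul_right _ (Nat.le_succ _))
  · refine (gen_of_local hT hs h).mono (Nat.mul_le_mul_right _ ?_)
    exact (Nat.le_mul_of_pos_left _ hC).trans (Nat.le_succ _)

namespace PartAux

variable {F : Type u} [Field F] {d : ℕ}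

/-- The entries of `T` in the box of side `n`. -/
def arr (n : ℕ) (T : Tensor F d) : (∀ _ : Fin d, Fin n) → F := fun x => T fun i => x i

/-- The support of `T` lies in the box of side `n`. -/
def Bd (n : ℕ) (T : Tensor F d) : Prop := ∀ x, T x ≠ 0 → ∀ i, x i < n

lemma exists_bd (T : Tensor F d) : ∃ n, Bd n T :=
  ⟨(T.support.sup fun x => Finset.univ.sup x) + 1, fun x hx i => Nat.lt_succ_of_le
    ((Finset.le_sup (f := x) (Finset.mem_univ i)).trans
      (Finset.le_sup (f := fun x : Fin d → ℕ => Finset.univ.sup x) (Finsupp.mem_support_iff.2 hx)))⟩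

lemma Bd.filter {n : ℕ} {T : Tensor F d} (h : Bd n T) (p : (Fin d → ℕ) → Prop) [DecidablePred p] :
    Bd n (T.filter p) := fun x hx => h x fun e => hx (by simp [Finsupp.filter_apply, e])

lemma apr_of_mem {s : ℕ} (n : ℕ) {T : Tensor F d} (S : Fin s → Tensor F d) (hS : ∀ k, IsPart (S k))
    (hT : T = ∑ k, S k) : APR s (arr n T) := by
  choose A f g h1 h2 h3 using hS
  refine ⟨A, fun k y => f k fun i => y i, fun k y => g k fun i => y i, fun k => ⟨h1 k, h2 k⟩,
    fun x => ?_⟩
  rw [arr, hT, Finsupp.finsetSum_apply]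
  exact Finset.sum_congr rfl fun k _ => h3 k _

lemma mem_of_apr {s n : ℕ} {T : Tensor F d} (hn : Bd n T) (h : APR s (arr n T)) :
    ∃ S : Fin s → Tensor F d, (∀ k, IsPart (S k)) ∧ T = ∑ k, S k := by
  classical
  obtain ⟨A, f, g, h1, h2⟩ := h
  let f' : ∀ k, ({j : Fin d // j ∈ A k} → ℕ) → F := fun k y =>
    if h : ∀ i, y i < n then f k fun i => ⟨y i, h i⟩ else 0
  let g' : ∀ k, ({j : Fin d // j ∉ A k} → ℕ) → F := fun k y =>
    if h : ∀ i, y i < n then g k fun i => ⟨y i, h i⟩ else 0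
  have hz : ∀ k (x : Fin d → ℕ), (¬∀ i, x i < n) →
      f' k (fun j => x j) * g' k (fun j => x j) = 0 := by
    intro k x hx
    obtain ⟨i, hi⟩ := not_forall.1 hx
    by_cases hA : i ∈ A k
    · exact mul_eq_zero_of_left (dif_neg fun h => hi (h ⟨i, hA⟩)) _
    · exact mul_eq_zero_of_right _ (dif_neg fun h => hi (h ⟨i, hA⟩))
  refine ⟨fun k => Finsupp.onFinset (Fintype.piFinset fun _ => Finset.range n)
    (fun x => f' k (fun j => x j) * g' k (fun j => x j)) fun x hx => ?_,
    fun k => ⟨A k, f' k, g' k, (h1 k).1, (h1 k).2, fun x => rfl⟩, ?_⟩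
  · by_contra h
    exact hx (hz k x (by simpa using h))
  · ext x
    rw [Finsupp.finsetSum_apply]
    simp only [Finsupp.onFinset_apply]
    by_cases hx : ∀ i, x i < n
    · refine (h2 fun i => ⟨x i, hx i⟩).trans (Finset.sum_congr rfl fun k _ => ?_)
      simp only [f', g']
      rw [dif_pos fun i : {j // j ∈ A k} => hx i.1, dif_pos fun i : {j // j ∉ A k} => hx i.1]
    · rw [Finset.sum_eq_zero fun k _ => hz k x hx]
      by_contra h
      exact hx (hn x h)

lemma rank_mem (hd : 2 ≤ d) (T : Tensor F d) :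
    ∃ S : Fin (partitionRank T) → Tensor F d, (∀ k, IsPart (S k)) ∧ T = ∑ k, S k := by
  have : Nontrivial (Fin d) := Fin.nontrivial_iff_two_le.2 hd
  obtain ⟨n, hn⟩ := exists_bd T
  have i₀ : Fin d := ⟨0, by omega⟩
  have : Nonempty {i // i ≠ i₀} := let ⟨i, hi⟩ := exists_ne i₀; ⟨⟨i, hi⟩⟩
  exact Nat.sInf_mem (s := {r : ℕ | ∃ S : Fin r → Tensor F d, (∀ k, IsPart (S k)) ∧ T = ∑ k, S k})
    ⟨_, mem_of_apr hn ((apr_iff_gen i₀ _ _).2 (Gen.of_card (isML_slices i₀ (arr n T))))⟩

lemma rank_le_iff (hd : 2 ≤ d) {n : ℕ} {T : Tensor F d} (hn : Bd n T) (i₀ : Fin d) (s : ℕ) :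
    partitionRank T ≤ s ↔ Gen Sigma.fst s (slices i₀ (arr n T)) := by
  have : Nontrivial (Fin d) := Fin.nontrivial_iff_two_le.2 hd
  constructor
  · intro h
    obtain ⟨S, h1, h2⟩ := rank_mem hd T
    exact ((apr_iff_gen i₀ _ _).1 (apr_of_mem n S h1 h2)).mono h
  · intro h
    exact Nat.sInf_le (mem_of_apr hn ((apr_iff_gen i₀ _ _).2 h))

lemma rank_pos (hd : 2 ≤ d) {T : Tensor F d} (h : T ≠ 0) : 1 ≤ partitionRank T := by
  by_contra h0
  obtain ⟨S, -, h2⟩ := rank_mem hd T
  have : IsEmpty (Fin (partitionRank T)) := ⟨fun k => h0 (Nat.one_le_of_lt k.2)⟩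
  exact h (by rw [h2, Finset.univ_eq_empty, Finset.sum_empty])

lemma rank_zero : partitionRank (0 : Tensor F d) = 0 :=
  Nat.le_zero.1 (Nat.sInf_le ⟨Fin.elim0, fun k => k.elim0, by simp⟩)

/-- Restriction of one slot. -/
lemma one_slot (hd : 2 ≤ d) : ∃ L C : ℕ, 1 ≤ L ∧ 1 ≤ C ∧ ∀ (F : Type u) [Field F] (T : Tensor F d)
    (i₀ : Fin d) (s : ℕ), 1 ≤ s → C * s < partitionRank T →
    ∃ J : Finset ℕ, J.card ≤ L * s ∧ s < partitionRank (T.filter fun x => x i₀ ∈ J) := by
  obtain ⟨L, C, hL, hC, H⟩ := gen_of_local_all.{u} (d - 1)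
  refine ⟨L, C, hL, hC, fun F _ T i₀ s hs h => ?_⟩
  have : Nontrivial (Fin d) := Fin.nontrivial_iff_two_le.2 hd
  have : Nonempty {i // i ≠ i₀} := let ⟨i, hi⟩ := exists_ne i₀; ⟨⟨i, hi⟩⟩
  obtain ⟨n, hn⟩ := exists_bd T
  by_contra hcon
  push Not at hcon
  refine h.not_ge ((rank_le_iff hd hn i₀ _).2 (H _ _ _ F Sigma.fst (by simp) _
    (isML_slices i₀ (arr n T)) s hs fun U => ?_))
  have h1 := (rank_le_iff hd (hn.filter _) i₀ _).1 (hcon (Finset.univ.image fun i => (U i : ℕ))
    (Finset.card_image_le.trans (by simp)))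
  convert h1.comp U using 2 with i
  unfold slices
  refine Finset.sum_congr rfl fun a _ => ?_
  rw [arr, arr, Finsupp.filter_apply_pos]
  simp

/-- Restriction of a set of slots. -/
lemma many_slots {L C : ℕ} (hC : 1 ≤ C) (H : ∀ (T : Tensor F d) (i₀ : Fin d) (s : ℕ), 1 ≤ s →
      C * s < partitionRank T →
      ∃ J : Finset ℕ, J.card ≤ L * s ∧ s < partitionRank (T.filter fun x => x i₀ ∈ J))
    {s : ℕ} (hs : 1 ≤ s) (A : Finset (Fin d)) : ∀ T : Tensor F d,
      C ^ A.card * s < partitionRank T → ∃ J : Fin d → Finset ℕ,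
        (∀ i, (J i).card ≤ L * (C ^ A.card * s)) ∧
        s < partitionRank (T.filter fun x => ∀ i ∈ A, x i ∈ J i) := by
  induction A using Finset.induction_on with
  | empty =>
    intro T h
    refine ⟨fun _ => ∅, fun _ => by simp, ?_⟩
    convert h using 2
    · simp
    · ext x
      simp
  | insert a A ha ih =>
    intro T h
    rw [Finset.card_insert_of_notMem ha, pow_succ', mul_assoc] at h ⊢
    have h0 : 1 ≤ C ^ A.card * s := Nat.mul_pos (pow_pos hC _) hs
    obtain ⟨J₀, h1, h2⟩ := H T a _ h0 h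
    obtain ⟨J, h3, h4⟩ := ih _ h2
    have h5 : L * (C ^ A.card * s) ≤ L * (C * (C ^ A.card * s)) :=
      Nat.mul_le_mul_left _ (Nat.le_mul_of_pos_left _ hC)
    refine ⟨Function.update J a J₀, fun i => ?_, ?_⟩
    · rcases eq_or_ne i a with rfl | hi
      · rw [Function.update_self]
        exact h1.trans h5
      · rw [Function.update_of_ne hi]
        exact (h3 i).trans h5
    · convert h4 using 2
      ext x
      have e : (∀ i ∈ insert a A, x i ∈ Function.update J a J₀ i) ↔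
          x a ∈ J₀ ∧ ∀ i ∈ A, x i ∈ J i := by
        rw [Finset.forall_mem_insert, Function.update_self]
        refine and_congr_right fun _ => forall₂_congr fun i hi => ?_
        rw [Function.update_of_ne (ne_of_mem_of_not_mem hi ha)]
      simp only [Finsupp.filter_apply, e]
      by_cases e1 : x a ∈ J₀ <;> by_cases e2 : ∀ i ∈ A, x i ∈ J i <;> simp [e1, e2]

end PartAux

open PartAux in
/-- Linear core property of partition rank, with constants depending only on the order. -/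
theorem exists_part_core {d : ℕ} (hd : 2 ≤ d) : ∃ L C : ℕ, 1 ≤ L ∧ 1 ≤ C ∧
    ∀ (F : Type u) [Field F] (T : Tensor F d), ∃ J : Fin d → Finset ℕ,
      (∀ i, (J i).card ≤ L * partitionRank T) ∧
      partitionRank T ≤ C * partitionRank (restrict T J) := by
  obtain ⟨L, C, hL, hC, H⟩ := one_slot.{u} hd
  have hK : 1 ≤ C ^ d := Nat.one_le_pow _ _ hC
  refine ⟨L, C ^ d, hL, hK, fun F _ T => ?_⟩
  rcases lt_or_ge (C ^ d) (partitionRank T) with h | h
  · have h1 : 1 ≤ (partitionRank T - 1) / C ^ d := (Nat.le_div_iff_mul_le hK).2 (by omega)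
    have h2 : C ^ d * ((partitionRank T - 1) / C ^ d) ≤ partitionRank T - 1 := Nat.mul_div_le _ _
    have h3 := Nat.lt_mul_div_succ (partitionRank T - 1) hK
    obtain ⟨J, h4, h5⟩ := many_slots hC (H F) h1 Finset.univ T
      (by rw [Finset.card_univ, Fintype.card_fin]; omega)
    rw [Finset.card_univ, Fintype.card_fin] at h4
    refine ⟨J, fun i => (h4 i).trans (Nat.mul_le_mul_left _ (by omega)), ?_⟩
    have e : restrict T J = T.filter fun x => ∀ i ∈ Finset.univ, x i ∈ J i := by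
      ext x
      simp [restrict, Finsupp.filter_apply]
    rw [e]
    exact (Nat.le_of_pred_lt h3).trans (Nat.mul_le_mul_left (C ^ d) (Nat.succ_le_of_lt h5))
  · rcases eq_or_ne T 0 with rfl | h0
    · exact ⟨fun _ => ∅, fun _ => by simp, by simp [rank_zero]⟩
    · obtain ⟨x, hx⟩ := DFunLike.ne_iff.1 h0
      refine ⟨fun i => {x i}, fun i => ?_, h.trans (Nat.le_mul_of_pos_right _ (rank_pos hd ?_))⟩
      · rw [Finset.card_singleton]
        exact Nat.mul_pos hL (rank_pos hd h0)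
      · refine DFunLike.ne_iff.2 ⟨x, ?_⟩
        rwa [restrict, Finsupp.filter_apply_pos _ _ (by simp)]

end Pool.Agent.Work.MP_898d8d_co
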