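import Mathlib

namespace Pool.Agent.Work.MP_898d8d_co

/-- A `d`-tensor over `F`: a finitely supported function `ℕ^d → F`. -/
abbrev Tensor (F : Type*) [Field F] (d : ℕ) : Type _ := (Fin d → ℕ) →₀ F

/-- `T` has the form `f (x i) * g (x restricted to the coordinates other than i)` for some `i`. -/
def IsSlice {F : Type*} [Field F] {d : ℕ} (T : Tensor F d) : Prop :=
  ∃ (i : Fin d) (f : ℕ → F) (g : ({j : Fin d // j ≠ i} → ℕ) → F),
    ∀ x : Fin d → ℕ, T x = f (x i) * g (fun j => x j)

/-- The slice rank of `T`: the least `r` such that `T` is a sum of `r` slice tensors. -/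
noncomputable def sliceRank {F : Type*} [Field F] {d : ℕ} (T : Tensor F d) : ℕ :=
  sInf {r : ℕ | ∃ S : Fin r → Tensor F d, (∀ k, IsSlice (S k)) ∧ T = ∑ k, S k}

/-- The restriction of `T` to the box `J 0 × ⋯ × J (d-1)`: entries outside the box are set
to zero. -/
noncomputable def restrict {F : Type*} [Field F] {d : ℕ} (T : Tensor F d)
    (J : Fin d → Finset ℕ) : Tensor F d :=
  T.filter (fun x => ∀ i, x i ∈ J i)

end Pool.Agent.Work.MP_898d8d_co
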