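import Mathlib
import Pool.Agent.Work.MP_898d8d_co.Defs

-- merged part: Pool.Agent.Work.MP_898d8d_co.Norms
section
/-!
Weighted families of linear functionals, the ultranorms they define, and common adapted bases.
-/

namespace Pool.Agent.Work.MP_898d8d_co

open scoped NNReal
open Module

variable {F V : Type*} [Field F] [AddCommGroup V] [Module F V]

/-- An ultranorm with finitely many values. -/
structure IsUN (F : Type*) {V : Type*} [Field F] [AddCommGroup V] [Module F V]
    (ω : V → ℝ≥0) : Prop where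
  zero : ω 0 = 0
  add : ∀ u v, ω (u + v) ≤ max (ω u) (ω v)
  smul : ∀ (c : F) v, ω (c • v) ≤ ω v
  fin : (Set.range ω).Finite

theorem IsUN.sub {ω : V → ℝ≥0} (h : IsUN F ω) (u v : V) : ω (u - v) ≤ max (ω u) (ω v) := by
  have h1 := h.add u ((-1 : F) • v)
  have h2 := h.smul (-1 : F) v
  have : u - v = u + (-1 : F) • v := by simp [sub_eq_add_neg]
  rw [this]
  exact h1.trans (max_le_max le_rfl h2)

theorem IsUN.sum_le {ω : V → ℝ≥0} (h : IsUN F ω) {ι : Type*} (s : Finset ι) (f : ι → V)
    (t : ℝ≥0) (hf : ∀ i ∈ s, ω (f i) ≤ t) : ω (∑ i ∈ s, f i) ≤ t := by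
  classical
  induction s using Finset.induction_on with
  | empty => simp [h.zero]
  | insert a s ha ih =>
    rw [Finset.sum_insert ha]
    refine (h.add _ _).trans (max_le (hf a (by simp)) (ih fun i hi => hf i (by simp [hi])))

theorem IsUN.sum_lt {ω : V → ℝ≥0} (h : IsUN F ω) {ι : Type*} (s : Finset ι) (f : ι → V)
    (t : ℝ≥0) (ht : 0 < t) (hf : ∀ i ∈ s, ω (f i) < t) : ω (∑ i ∈ s, f i) < t := by
  classical
  induction s using Finset.induction_on with
  | empty => simpa [h.zero] using ht
  | insert a s ha ih =>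
    rw [Finset.sum_insert ha]
    refine (h.add _ _).trans_lt (max_lt (hf a (by simp)) (ih fun i hi => hf i (by simp [hi])))

/-- A basis `u` of `H` with coordinate functionals `μ`. -/
structure IsBiBasis (H : Submodule F V) {m : ℕ} (u : Fin m → V) (μ : Fin m → Dual F V) :
    Prop where
  mem : ∀ c, u c ∈ H
  expand : ∀ v ∈ H, v = ∑ c, μ c v • u c
  dual : ∀ c c', μ c (u c') = if c = c' then 1 else 0

/-- The basis splits the ultranorm on `H`. -/
def Splits (ω : V → ℝ≥0) (H : Submodule F V) {m : ℕ} (u : Fin m → V) (μ : Fin m → Dual F V) :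
    Prop :=
  ∀ v ∈ H, ∀ c, μ c v ≠ 0 → ω (u c) ≤ ω v

theorem exists_common_basis_aux {ω ω' : V → ℝ≥0} (h : IsUN F ω) (h' : IsUN F ω') (n : ℕ) :
    ∀ (H : Submodule F V) [FiniteDimensional F H], finrank F H ≤ n →
      ∃ (m : ℕ) (u : Fin m → V) (μ : Fin m → Dual F V),
        IsBiBasis H u μ ∧ Splits ω H u μ ∧ Splits ω' H u μ := by
  induction n with
  | zero =>
    intro H _ hH
    have hbot : H = ⊥ := by
      rw [← Submodule.finrank_eq_zero]; omega
    refine ⟨0, Fin.elim0, Fin.elim0, ⟨fun c => c.elim0, ?_, fun c => c.elim0⟩,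
      fun v _ c => c.elim0, fun v _ c => c.elim0⟩
    intro v hv
    rw [hbot] at hv
    simpa using hv
  | succ n ih =>
    intro H _ hH
    by_cases hbot : H = ⊥
    · refine ⟨0, Fin.elim0, Fin.elim0, ⟨fun c => c.elim0, ?_, fun c => c.elim0⟩,
        fun v _ c => c.elim0, fun v _ c => c.elim0⟩
      intro v hv
      rw [hbot] at hv
      simpa using hv
    obtain ⟨v1, hv1H, hv1⟩ := Submodule.exists_mem_ne_zero_of_ne_bot hbot
    -- maximise ω' - ω on nonzero vectors of H
    let g : V → ℝ := fun v => (ω' v : ℝ) - ω v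
    let A : Set V := {v | v ∈ H ∧ v ≠ 0}
    have hfin : (g '' A).Finite := by
      have := (h.fin.prod h'.fin).image (fun p : ℝ≥0 × ℝ≥0 => (p.2 : ℝ) - p.1)
      refine this.subset ?_
      rintro _ ⟨v, _, rfl⟩
      exact ⟨(ω v, ω' v), ⟨⟨v, rfl⟩, ⟨v, rfl⟩⟩, rfl⟩
    obtain ⟨_, ⟨v0, ⟨hv0H, hv0⟩, rfl⟩, hmax⟩ :=
      Set.exists_max_image (g '' A) id hfin ⟨g v1, v1, ⟨hv1H, hv1⟩, rfl⟩
    have hmax' : ∀ v ∈ H, v ≠ 0 → (ω' v : ℝ) - ω v ≤ (ω' v0 : ℝ) - ω v0 := fun v hv hv' =>
      hmax (g v) ⟨v, ⟨hv, hv'⟩, rfl⟩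
    let P : Submodule F V := Submodule.span F {u | ω' u < ω' v0}
    have hP : ∀ u ∈ P, u = 0 ∨ ω' u < ω' v0 := by
      intro u hu
      induction hu using Submodule.span_induction with
      | mem x hx => exact Or.inr hx
      | zero => exact Or.inl rfl
      | add x y _ _ hx hy =>
        rcases hx with rfl | hx
        · simpa using hy
        rcases hy with rfl | hy
        · right; simpa using hx
        right
        exact (h'.add x y).trans_lt (max_lt hx hy)
      | smul a x _ hx =>
        rcases hx with rfl | hx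
        · left; simp
        right
        exact (h'.smul a x).trans_lt hx
    have hv0P : v0 ∉ P := by
      intro hmem
      rcases hP v0 hmem with h0 | h0
      · exact hv0 h0
      · exact lt_irrefl _ h0
    obtain ⟨f, hf0, hfP⟩ := Submodule.exists_le_ker_of_notMem hv0P
    let φ : Dual F V := (f v0)⁻¹ • f
    have hφ0 : φ v0 = 1 := by simp [φ, hf0]
    have hφ' : ∀ v, φ v ≠ 0 → ω' v0 ≤ ω' v := by
      intro v hv
      by_contra hlt
      push Not at hlt
      have : v ∈ P := Submodule.subset_span hlt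
      have := hfP this
      simp only [LinearMap.mem_ker] at this
      exact hv (by simp [φ, this])
    have hφ : ∀ v ∈ H, φ v ≠ 0 → ω v0 ≤ ω v := by
      intro v hvH hv
      have hv0' : v ≠ 0 := by rintro rfl; simp at hv
      have h1 := hmax' v hvH hv0'
      have h2 : (ω' v0 : ℝ) ≤ ω' v := by exact_mod_cast hφ' v hv
      have : (ω v0 : ℝ) ≤ ω v := by linarith
      exact_mod_cast this
    let H' : Submodule F V := H ⊓ LinearMap.ker φ
    have hlt : H' < H := by
      refine lt_of_le_of_ne inf_le_left ?_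
      intro he
      have : v0 ∈ H' := he ▸ hv0H
      have := this.2
      simp [hφ0] at this
    have : FiniteDimensional F H' := Submodule.finiteDimensional_of_le hlt.le
    have hrank : finrank F H' ≤ n := by
      have := Submodule.finrank_lt_finrank_of_lt hlt
      omega
    obtain ⟨m, u, μ, hb, hs, hs'⟩ := ih H' hrank
    let π : V →ₗ[F] V := LinearMap.id - φ.smulRight v0
    have hπ : ∀ v, π v = v - φ v • v0 := fun v => rfl
    have hπH : ∀ v ∈ H, π v ∈ H' := by
      intro v hv
      refine ⟨?_, ?_⟩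
      · rw [hπ]; exact H.sub_mem hv (H.smul_mem _ hv0H)
      · simp [hπ, hφ0]
    have hπu : ∀ c, π (u c) = u c := by
      intro c
      have := (hb.mem c).2
      simp only [SetLike.mem_coe, LinearMap.mem_ker] at this
      simp [hπ, this]
    have hφu : ∀ c, φ (u c) = 0 := fun c => by simpa using (hb.mem c).2
    have key : ∀ {ρ : V → ℝ≥0}, IsUN F ρ → (∀ v ∈ H, φ v ≠ 0 → ρ v0 ≤ ρ v) → Splits ρ H' u μ →
        Splits ρ H (Fin.cons v0 u : Fin (m + 1) → V)
          (Fin.cons φ (fun c => μ c ∘ₗ π) : Fin (m + 1) → Dual F V) := by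
      intro ρ hρ h0 hsp v hv c
      refine Fin.cases ?_ (fun c => ?_) c
      · simpa using h0 v hv
      · intro hc
        simp only [Fin.cons_succ, LinearMap.comp_apply] at hc ⊢
        refine (hsp _ (hπH v hv) c hc).trans ?_
        by_cases hφv : φ v = 0
        · simp [hπ, hφv]
        · rw [hπ]
          refine (hρ.sub _ _).trans (max_le le_rfl ((hρ.smul _ _).trans (h0 v hv hφv)))
    refine ⟨m + 1, Fin.cons v0 u, Fin.cons φ (fun c => μ c ∘ₗ π), ⟨?_, ?_, ?_⟩,
      key h hφ hs, key h' (fun v _ => hφ' v) hs'⟩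
    · intro c
      refine Fin.cases ?_ (fun c => ?_) c
      · simpa using hv0H
      · simpa using (hb.mem c).1
    · intro v hv
      rw [Fin.sum_univ_succ]
      simp only [Fin.cons_zero, Fin.cons_succ, LinearMap.comp_apply]
      rw [← hb.expand _ (hπH v hv), hπ]
      abel
    · intro c c'
      refine Fin.cases ?_ (fun c => ?_) c
      · refine Fin.cases ?_ (fun c' => ?_) c'
        · simp [hφ0]
        · simp [hφu, (Fin.succ_ne_zero c').symm]
      · refine Fin.cases ?_ (fun c' => ?_) c'
        · simp [hπ, hφ0]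
        · simp [hπu, hb.dual]

theorem exists_common_basis {ω ω' : V → ℝ≥0} (h : IsUN F ω) (h' : IsUN F ω')
    (H : Submodule F V) [FiniteDimensional F H] :
    ∃ (m : ℕ) (u : Fin m → V) (μ : Fin m → Dual F V),
      IsBiBasis H u μ ∧ Splits ω H u μ ∧ Splits ω' H u μ :=
  exists_common_basis_aux h h' _ H le_rfl

/-- A finite weighted family of linear functionals. -/
structure WF (F V : Type*) [Field F] [AddCommGroup V] [Module F V] where
  n : ℕ
  lam : Fin n → Dual F V
  x : Fin n → ℝ≥0

open Classical in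
/-- The ultranorm of a weighted family. -/
noncomputable def WF.om (w : WF F V) (v : V) : ℝ≥0 :=
  (Finset.univ.filter (fun k => w.lam k v ≠ 0)).sup w.x

/-- The quadratic cost of a weighted family. -/
noncomputable def WF.cost (w : WF F V) : ℝ := ∑ k, (w.x k : ℝ) ^ 2

theorem WF.cost_nonneg (w : WF F V) : 0 ≤ w.cost := Finset.sum_nonneg fun _ _ => sq_nonneg _

theorem WF.om_le_iff (w : WF F V) (v : V) (t : ℝ≥0) :
    w.om v ≤ t ↔ ∀ k, w.lam k v ≠ 0 → w.x k ≤ t := by
  simp [WF.om, Finset.sup_le_iff]

theorem WF.le_om (w : WF F V) {v : V} {k : Fin w.n} (hk : w.lam k v ≠ 0) : w.x k ≤ w.om v :=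
  (w.om_le_iff v _).1 le_rfl k hk

theorem WF.om_lt_iff (w : WF F V) (v : V) {t : ℝ≥0} (ht : 0 < t) :
    w.om v < t ↔ ∀ k, w.lam k v ≠ 0 → w.x k < t := by
  unfold WF.om
  rw [Finset.sup_lt_iff (by simpa using ht)]
  simp

theorem WF.exists_of_le_om (w : WF F V) {v : V} {t : ℝ≥0} (ht : 0 < t) (h : t ≤ w.om v) :
    ∃ k, w.lam k v ≠ 0 ∧ t ≤ w.x k := by
  by_contra hcon
  push Not at hcon
  exact absurd ((w.om_lt_iff v ht).2 hcon) (not_lt.2 h)

theorem WF.isUN (w : WF F V) : IsUN F w.om where
  zero := by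
    apply le_antisymm _ zero_le
    rw [w.om_le_iff]; simp
  add u v := by
    rw [w.om_le_iff]
    intro k hk
    by_cases hu : w.lam k u = 0
    · have : w.lam k v ≠ 0 := by simpa [hu] using hk
      exact (w.le_om this).trans (le_max_right _ _)
    · exact (w.le_om hu).trans (le_max_left _ _)
  smul c v := by
    rw [w.om_le_iff]
    intro k hk
    apply w.le_om
    intro h0
    simp [h0] at hk
  fin := by
    refine (Set.finite_range (fun s : Finset (Fin w.n) => s.sup w.x)).subset ?_
    rintro _ ⟨v, rfl⟩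
    exact ⟨_, rfl⟩

/-- The weights of a splitting basis cost no more than the family. -/
theorem WF.sum_sq_le_cost (w : WF F V) {H : Submodule F V} {m : ℕ} {u : Fin m → V}
    {μ : Fin m → Dual F V} (hb : IsBiBasis H u μ) (hs : Splits w.om H u μ) :
    ∑ c, (w.om (u c) : ℝ) ^ 2 ≤ w.cost := by
  classical
  let P := {c : Fin m // 0 < w.om (u c)}
  let t : P → Finset (Fin w.n) := fun c => Finset.univ.filter (fun k => w.om (u c) ≤ w.x k)
  have hall : ∀ s : Finset P, s.card ≤ (s.biUnion t).card := by
    intro s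
    rcases s.eq_empty_or_nonempty with rfl | hne
    · simp
    obtain ⟨c0, hc0, hmin⟩ := s.exists_min_image (fun c : P => w.om (u c)) hne
    refine le_trans ?_ (Finset.card_le_card (Finset.subset_biUnion_of_mem t hc0))
    let b : s → (t c0 → F) := fun c k => w.lam k (u c.1.1)
    have hli : LinearIndependent F b := by
      rw [Fintype.linearIndependent_iff]
      intro a ha c
      by_contra hac
      let v : V := ∑ c' : s, a c' • u c'.1.1
      have hvH : v ∈ H := H.sum_mem fun c' _ => H.smul_mem _ (hb.mem _)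
      have hμ : μ c.1.1 v = a c := by
        simp only [v, map_sum, map_smul, hb.dual, smul_eq_mul]
        rw [Finset.sum_eq_single c]
        · simp
        · intro c' _ hne
          rw [if_neg]
          · simp
          · intro he
            exact hne (Subtype.ext (Subtype.ext he.symm))
        · simp
      have h1 : w.om (u c.1.1) ≤ w.om v := hs v hvH _ (by rw [hμ]; exact hac)
      obtain ⟨k, hk, hk'⟩ := w.exists_of_le_om c0.2 ((hmin c.1 c.2).trans h1)
      have hkt : k ∈ t c0 := by simpa [t] using hk'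
      have := congrFun ha ⟨k, hkt⟩
      apply hk
      simpa [v, b] using this
    have := hli.fintype_card_le_finrank
    simpa using this
  obtain ⟨σ, hσ, hσt⟩ := (Finset.all_card_le_biUnion_card_iff_exists_injective t).1 hall
  have h1 : ∑ c, (w.om (u c) : ℝ) ^ 2 = ∑ c : P, (w.om (u c) : ℝ) ^ 2 := by
    rw [← Finset.sum_subtype (Finset.univ.filter (fun c => 0 < w.om (u c))) (by simp)
      (fun c => (w.om (u c) : ℝ) ^ 2)]
    symm
    apply Finset.sum_subset (Finset.filter_subset _ _)
    intro c _ hc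
    have : w.om (u c) = 0 := by simpa using hc
    simp [this]
  rw [h1]
  calc ∑ c : P, (w.om (u c) : ℝ) ^ 2 ≤ ∑ c : P, (w.x (σ c) : ℝ) ^ 2 := by
        refine Finset.sum_le_sum fun c _ => ?_
        have : w.om (u c) ≤ w.x (σ c) := by simpa [t] using hσt c
        have : (w.om (u c) : ℝ) ≤ w.x (σ c) := by exact_mod_cast this
        gcongr
    _ = ∑ k ∈ Finset.univ.image σ, (w.x k : ℝ) ^ 2 := by
        rw [Finset.sum_image (fun a _ b _ hab => hσ hab)]
    _ ≤ w.cost := Finset.sum_le_sum_of_subset_of_nonneg (Finset.subset_univ _)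
        (fun _ _ _ => sq_nonneg _)

/-- The midpoint of two weighted families. -/
theorem WF.exists_mid (w w' : WF F V) (H : Submodule F V) [FiniteDimensional F H] :
    ∃ z : WF F V,
      (∀ v ∈ H, v ∈ Submodule.span F {u | u ∈ H ∧ w.om u + w'.om u ≤ 2 * z.om v}) ∧
      z.cost ≤ (w.cost + w'.cost) / 2 ∧
      ∀ v ∈ H, ∀ η : ℝ, 0 < η → (w.om v : ℝ) + η ≤ w'.om v →
        z.cost ≤ (w.cost + w'.cost) / 2 - η ^ 2 / 4 := by
  obtain ⟨m, u, μ, hb, hs, hs'⟩ := exists_common_basis w.isUN w'.isUN H
  let z : WF F V := ⟨m, μ, fun c => (w.om (u c) + w'.om (u c)) / 2⟩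
  have hc := w.sum_sq_le_cost hb hs
  have hc' := w'.sum_sq_le_cost hb hs'
  have hz : z.cost = (∑ c, (w.om (u c) : ℝ) ^ 2 + ∑ c, (w'.om (u c) : ℝ) ^ 2) / 2
      - (∑ c, ((w'.om (u c) : ℝ) - w.om (u c)) ^ 2) / 4 := by
    simp only [WF.cost, z]
    rw [← Finset.sum_add_distrib, Finset.sum_div, Finset.sum_div, ← Finset.sum_sub_distrib]
    refine Finset.sum_congr rfl fun c _ => ?_
    push_cast
    ring
  have hnn : 0 ≤ ∑ c, ((w'.om (u c) : ℝ) - w.om (u c)) ^ 2 :=
    Finset.sum_nonneg fun _ _ => sq_nonneg _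
  refine ⟨z, ?_, by rw [hz]; linarith, ?_⟩
  · intro v hv
    have hexp := hb.expand v hv
    have : ∑ c, μ c v • u c ∈
        Submodule.span F {u | u ∈ H ∧ w.om u + w'.om u ≤ 2 * z.om v} := by
      refine Submodule.sum_mem _ fun c _ => ?_
      by_cases hc0 : μ c v = 0
      · simp [hc0]
      refine Submodule.smul_mem _ _ (Submodule.subset_span ⟨hb.mem c, ?_⟩)
      have h1 : z.x c ≤ z.om v := z.le_om (k := c) hc0
      have h2 : z.x c = (w.om (u c) + w'.om (u c)) / 2 := rfl
      rw [h2] at h1
      have h3 : ((w.om (u c) : ℝ) + w'.om (u c)) / 2 ≤ z.om v := by exact_mod_cast h1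
      have : (w.om (u c) : ℝ) + w'.om (u c) ≤ 2 * z.om v := by linarith
      exact_mod_cast this
    rwa [← hexp] at this
  · intro v hv η hη hle
    have hpos : 0 < w'.om v := by
      have : (0 : ℝ) < w'.om v := by
        have := (w.om v).2
        have h0 : (0 : ℝ) ≤ w.om v := NNReal.coe_nonneg _
        linarith
      exact_mod_cast this
    have : ∃ c, μ c v ≠ 0 ∧ w'.om v ≤ w'.om (u c) := by
      by_contra hcon
      push Not at hcon
      have : w'.om (∑ c, μ c v • u c) < w'.om v := by
        refine w'.isUN.sum_lt _ _ _ hpos fun c _ => ?_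
        by_cases hc0 : μ c v = 0
        · simpa [hc0, w'.isUN.zero] using hpos
        · exact (w'.isUN.smul _ _).trans_lt (hcon c hc0)
      rw [← hb.expand v hv] at this
      exact lt_irrefl _ this
    obtain ⟨c, hc0, hc1⟩ := this
    have h1 : (w'.om v : ℝ) ≤ w'.om (u c) := by exact_mod_cast hc1
    have h2 : (w.om (u c) : ℝ) ≤ w.om v := by exact_mod_cast hs v hv c hc0
    have h3 : η ^ 2 ≤ ((w'.om (u c) : ℝ) - w.om (u c)) ^ 2 := by
      have : η ≤ (w'.om (u c) : ℝ) - w.om (u c) := by linarith
      gcongr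
    have h4 : ((w'.om (u c) : ℝ) - w.om (u c)) ^ 2 ≤
        ∑ c, ((w'.om (u c) : ℝ) - w.om (u c)) ^ 2 :=
      Finset.single_le_sum (f := fun c => ((w'.om (u c) : ℝ) - w.om (u c)) ^ 2)
        (fun _ _ => sq_nonneg _) (Finset.mem_univ c)
    rw [hz]
    linarith

/-- Passing to a hyperplane saves the least weight outside the hyperplane. -/
theorem WF.exists_drop (w : WF F V) (H : Submodule F V) [FiniteDimensional F H]
    (ε : Dual F V) {e : V} (he : e ∈ H) (hε : ε e ≠ 0) (t : ℝ≥0)
    (ht : ∀ v ∈ H, ε v ≠ 0 → t ≤ w.om v) :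
    ∃ z : WF F V, z.cost ≤ w.cost - (t : ℝ) ^ 2 ∧ ∀ v ∈ H, ε v = 0 → w.om v ≤ z.om v := by
  classical
  let w1 : WF F V := ⟨1, fun _ => ε, fun _ => 1⟩
  obtain ⟨m, u, μ, hb, hs, hs'⟩ := exists_common_basis w.isUN w1.isUN H
  have hex : ∃ c0, ε (u c0) ≠ 0 := by
    by_contra hcon
    push Not at hcon
    apply hε
    rw [hb.expand e he]
    simp [hcon]
  obtain ⟨c0, hc0⟩ := hex
  let z : WF F V := ⟨m, μ, fun c => if c = c0 then 0 else w.om (u c)⟩
  refine ⟨z, ?_, ?_⟩
  · have hc := w.sum_sq_le_cost hb hs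
    have h1 : z.cost + (w.om (u c0) : ℝ) ^ 2 = ∑ c, (w.om (u c) : ℝ) ^ 2 := by
      simp only [WF.cost, z]
      rw [← Finset.add_sum_erase _ _ (Finset.mem_univ c0),
        ← Finset.add_sum_erase _ (fun c => (w.om (u c) : ℝ) ^ 2) (Finset.mem_univ c0)]
      have : ∑ c ∈ Finset.univ.erase c0, (((if c = c0 then 0 else w.om (u c) : ℝ≥0)) : ℝ) ^ 2
          = ∑ c ∈ Finset.univ.erase c0, (w.om (u c) : ℝ) ^ 2 := by
        refine Finset.sum_congr rfl fun c hc => ?_
        rw [if_neg (Finset.ne_of_mem_erase hc)]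
      rw [this]
      simp [add_comm]
    have h2 : (t : ℝ) ≤ w.om (u c0) := by exact_mod_cast ht _ (hb.mem c0) hc0
    have h3 : (t : ℝ) ^ 2 ≤ (w.om (u c0) : ℝ) ^ 2 := by gcongr
    linarith
  · intro v hv hεv
    have hμ0 : μ c0 v = 0 := by
      by_contra hne
      have h1 := hs' v hv c0 hne
      have h2 : w1.om v ≤ 0 := by
        rw [w1.om_le_iff]
        intro k hk
        exact absurd hεv hk
      have h3 : (1 : ℝ≥0) ≤ w1.om (u c0) := w1.le_om (k := (0 : Fin 1)) hc0
      exact absurd (h3.trans (h1.trans h2)) (by norm_num)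
    have : w.om (∑ c, μ c v • u c) ≤ z.om v := by
      refine w.isUN.sum_le _ _ _ fun c _ => ?_
      by_cases hc : μ c v = 0
      · simp [hc, w.isUN.zero]
      · have hne : c ≠ c0 := by rintro rfl; exact hc hμ0
        have := z.le_om (k := c) hc
        have h2 : z.x c = w.om (u c) := by simp [z, hne]
        rw [h2] at this
        exact (w.isUN.smul _ _).trans this
    rwa [← hb.expand v hv] at this

end Pool.Agent.Work.MP_898d8d_co
end

-- merged part: Pool.Agent.Work.MP_898d8d_co.Cover
section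
/-!
Fractional covers of a multilinear form, the quadratic potential and its rigidity.
-/

namespace Pool.Agent.Work.MP_898d8d_co

open scoped NNReal
open Module

variable {F V : Type*} [Field F] [AddCommGroup V] [Module F V] {d : ℕ}

/-- A multilinear form vanishing on generators vanishes on spans. -/
theorem vanish_of_span (M : MultilinearMap F (fun _ : Fin d => V) F) (G : Fin d → Set V)
    (hG : ∀ u : Fin d → V, (∀ i, u i ∈ G i) → M u = 0) (v : Fin d → V)
    (hv : ∀ i, v i ∈ Submodule.span F (G i)) : M v = 0 := by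
  classical
  have key : ∀ s : Finset (Fin d), ∀ v : Fin d → V, (∀ i ∈ s, v i ∈ Submodule.span F (G i)) →
      (∀ i ∉ s, v i ∈ G i) → M v = 0 := by
    intro s
    induction s using Finset.induction_on with
    | empty => intro v _ h2; exact hG v fun i => h2 i (by simp)
    | insert a s ha ih =>
      intro v h1 h2
      have hle : Submodule.span F (G a) ≤ LinearMap.ker (M.toLinearMap v a) := by
        rw [Submodule.span_le]
        intro x hx
        simp only [SetLike.mem_coe, LinearMap.mem_ker, MultilinearMap.toLinearMap_apply]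
        apply ih
        · intro i hi
          have : i ≠ a := by rintro rfl; exact ha hi
          rw [Function.update_of_ne this]
          exact h1 i (by simp [hi])
        · intro i hi
          by_cases hia : i = a
          · subst hia; simpa using hx
          · rw [Function.update_of_ne hia]
            exact h2 i (by simp [hi, hia])
      have := hle (h1 a (by simp))
      simpa using this
  exact key Finset.univ v (fun i _ => hv i) (fun i hi => absurd (Finset.mem_univ i) hi)

/-- A fractional cover of `M` on the product of the subspaces `H i`. -/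
def IsCover (M : MultilinearMap F (fun _ : Fin d => V) F) (H : Fin d → Submodule F V)
    (w : Fin d → WF F V) : Prop :=
  ∀ v : Fin d → V, (∀ i, v i ∈ H i) → ∑ i, ((w i).om (v i) : ℝ) < 1 → M v = 0

/-- Total cost of a cover. -/
noncomputable def tcost (w : Fin d → WF F V) : ℝ := ∑ i, (w i).cost

/-- The potential. -/
noncomputable def Phi (M : MultilinearMap F (fun _ : Fin d => V) F)
    (H : Fin d → Submodule F V) : ℝ :=
  sInf {c | ∃ w, IsCover M H w ∧ c = tcost w}

theorem tcost_nonneg (w : Fin d → WF F V) : 0 ≤ tcost w :=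
  Finset.sum_nonneg fun i _ => (w i).cost_nonneg

theorem Phi_le {M : MultilinearMap F (fun _ : Fin d => V) F} {H : Fin d → Submodule F V}
    {w : Fin d → WF F V} (hw : IsCover M H w) : Phi M H ≤ tcost w :=
  csInf_le ⟨0, by rintro _ ⟨w, _, rfl⟩; exact tcost_nonneg w⟩ ⟨w, hw, rfl⟩

theorem Phi_nonneg (M : MultilinearMap F (fun _ : Fin d => V) F) (H : Fin d → Submodule F V) :
    0 ≤ Phi M H :=
  Real.sInf_nonneg (by rintro _ ⟨w, _, rfl⟩; exact tcost_nonneg w)

theorem exists_cover (hd : 0 < d) (M : MultilinearMap F (fun _ : Fin d => V) F)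
    (H : Fin d → Submodule F V) [∀ i, FiniteDimensional F (H i)] : ∃ w, IsCover M H w := by
  let w0 : WF F V := ⟨0, Fin.elim0, Fin.elim0⟩
  choose m u μ hb _ _ using fun i => exists_common_basis w0.isUN w0.isUN (H i)
  refine ⟨fun i => ⟨m i, μ i, fun _ => 1⟩, ?_⟩
  intro v hv hlt
  let i0 : Fin d := ⟨0, hd⟩
  apply M.map_coord_zero i0
  rw [(hb i0).expand _ (hv i0)]
  refine Finset.sum_eq_zero fun c _ => ?_
  by_contra hne
  have hc : μ i0 c (v i0) ≠ 0 := by intro h0; simp [h0] at hne
  have h1 : (1 : ℝ≥0) ≤ (⟨m i0, μ i0, fun _ => 1⟩ : WF F V).om (v i0) :=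
    WF.le_om (⟨m i0, μ i0, fun _ => 1⟩ : WF F V) (k := c) hc
  have h2 : (1 : ℝ) ≤ (⟨m i0, μ i0, fun _ => 1⟩ : WF F V).om (v i0) := by exact_mod_cast h1
  have h3 := Finset.single_le_sum
    (f := fun i => (((⟨m i, μ i, fun _ => 1⟩ : WF F V).om (v i) : ℝ≥0) : ℝ))
    (fun i _ => NNReal.coe_nonneg _) (Finset.mem_univ i0)
  linarith

theorem exists_cover_lt (hd : 0 < d) (M : MultilinearMap F (fun _ : Fin d => V) F)
    (H : Fin d → Submodule F V) [∀ i, FiniteDimensional F (H i)] {γ : ℝ} (hγ : 0 < γ) :
    ∃ w, IsCover M H w ∧ tcost w < Phi M H + γ := by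
  obtain ⟨w0, hw0⟩ := exists_cover hd M H
  obtain ⟨_, ⟨w, hw, rfl⟩, hlt⟩ := Real.lt_sInf_add_pos
    (s := {c | ∃ w, IsCover M H w ∧ c = tcost w}) ⟨_, w0, hw0, rfl⟩ hγ
  exact ⟨w, hw, hlt⟩

theorem IsCover.mono {M : MultilinearMap F (fun _ : Fin d => V) F} {H H' : Fin d → Submodule F V}
    {w : Fin d → WF F V} (hw : IsCover M H' w) (hle : ∀ i, H i ≤ H' i) : IsCover M H w :=
  fun v hv hlt => hw v (fun i => hle i (hv i)) hlt

theorem Phi_mono (hd : 0 < d) (M : MultilinearMap F (fun _ : Fin d => V) F)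
    {H H' : Fin d → Submodule F V} [∀ i, FiniteDimensional F (H' i)] (hle : ∀ i, H i ≤ H' i) :
    Phi M H ≤ Phi M H' := by
  refine le_of_forall_pos_le_add fun γ hγ => ?_
  obtain ⟨w, hw, hlt⟩ := exists_cover_lt hd M H' hγ
  exact (Phi_le (hw.mono hle)).trans hlt.le

/-- Rigidity: two nearly optimal covers define nearly the same ultranorms. -/
theorem rigidity {M : MultilinearMap F (fun _ : Fin d => V) F} {H : Fin d → Submodule F V}
    [∀ i, FiniteDimensional F (H i)] {w w' : Fin d → WF F V} (hw : IsCover M H w)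
    (hw' : IsCover M H w') {s : ℝ} (hs : 0 < s) (h1 : tcost w < Phi M H + s ^ 2)
    (h2 : tcost w' < Phi M H + s ^ 2) (i : Fin d) {v : V} (hv : v ∈ H i) :
    ((w' i).om v : ℝ) < (w i).om v + 2 * s := by
  classical
  by_contra hcon
  push Not at hcon
  choose z hz1 hz2 hz3 using fun j => WF.exists_mid (w j) (w' j) (H j)
  have hzc : IsCover M H z := by
    intro x hx hlt
    refine vanish_of_span M
      (fun j => {u | u ∈ H j ∧ (w j).om u + (w' j).om u ≤ 2 * (z j).om (x j)}) ?_ x
      (fun j => hz1 j (x j) (hx j))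
    intro u hu
    have hsum : ∑ j, ((w j).om (u j) : ℝ) + ∑ j, ((w' j).om (u j) : ℝ) < 2 := by
      rw [← Finset.sum_add_distrib]
      have : ∑ j, (((w j).om (u j) : ℝ) + (w' j).om (u j)) ≤ ∑ j, 2 * ((z j).om (x j) : ℝ) := by
        refine Finset.sum_le_sum fun j _ => ?_
        exact_mod_cast (hu j).2
      rw [← Finset.mul_sum] at this
      linarith
    by_cases hA : ∑ j, ((w j).om (u j) : ℝ) < 1
    · exact hw u (fun j => (hu j).1) hA
    · exact hw' u (fun j => (hu j).1) (by linarith)
  have hle := Phi_le hzc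
  have h3 : tcost z ≤ (tcost w + tcost w') / 2 - s ^ 2 := by
    have h4 := hz3 i v hv (2 * s) (by linarith) hcon
    unfold tcost
    rw [← Finset.add_sum_erase _ _ (Finset.mem_univ i),
      ← Finset.add_sum_erase _ (fun j => (w j).cost) (Finset.mem_univ i),
      ← Finset.add_sum_erase _ (fun j => (w' j).cost) (Finset.mem_univ i)]
    have h5 : ∑ j ∈ Finset.univ.erase i, (z j).cost ≤
        (∑ j ∈ Finset.univ.erase i, (w j).cost + ∑ j ∈ Finset.univ.erase i, (w' j).cost) / 2 := by
      rw [← Finset.sum_add_distrib, Finset.sum_div]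
      exact Finset.sum_le_sum fun j _ => hz2 j
    nlinarith
  linarith

/-- A nearly optimal cover of an extension by one direction has a light new direction. -/
theorem exists_light {M : MultilinearMap F (fun _ : Fin d => V) F} {H H' : Fin d → Submodule F V}
    [∀ i, FiniteDimensional F (H' i)] {w : Fin d → WF F V} (hw : IsCover M H' w)
    (hle : ∀ j, H j ≤ H' j) (i : Fin d) (ε : Dual F V) (hε : ∀ v ∈ H i, ε v = 0)
    {e : V} (he : e ∈ H' i) (hεe : ε e ≠ 0) {s : ℝ} (hs : 0 < s)
    (h1 : tcost w < Phi M H + s ^ 2) :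
    ∃ v ∈ H' i, ε v = 1 ∧ ((w i).om v : ℝ) < s := by
  classical
  by_contra hcon
  push Not at hcon
  have ht : ∀ v ∈ H' i, ε v ≠ 0 → (⟨s, hs.le⟩ : ℝ≥0) ≤ (w i).om v := by
    intro v hv hne
    have h2 := hcon ((ε v)⁻¹ • v) ((H' i).smul_mem _ hv) (by simp [hne])
    have h3 : (w i).om ((ε v)⁻¹ • v) ≤ (w i).om v := (w i).isUN.smul _ _
    have h4 : ((w i).om ((ε v)⁻¹ • v) : ℝ) ≤ (w i).om v := by exact_mod_cast h3
    exact h2.trans h4
  obtain ⟨z, hz1, hz2⟩ := (w i).exists_drop (H' i) ε he hεe _ ht
  have hzc : IsCover M H (Function.update w i z) := by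
    intro x hx hlt
    refine hw x (fun j => hle j (hx j)) (lt_of_le_of_lt (Finset.sum_le_sum fun j _ => ?_) hlt)
    by_cases hj : j = i
    · subst hj
      rw [Function.update_self]
      exact_mod_cast hz2 _ (hle j (hx j)) (hε _ (hx j))
    · rw [Function.update_of_ne hj]
  have h5 := Phi_le hzc
  have h6 : tcost (Function.update w i z) ≤ tcost w - s ^ 2 := by
    unfold tcost
    rw [← Finset.add_sum_erase _ _ (Finset.mem_univ i),
      ← Finset.add_sum_erase _ (fun j => (w j).cost) (Finset.mem_univ i)]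
    have : ∑ j ∈ Finset.univ.erase i, (Function.update w i z j).cost =
        ∑ j ∈ Finset.univ.erase i, (w j).cost := by
      refine Finset.sum_congr rfl fun j hj => ?_
      rw [Function.update_of_ne (Finset.ne_of_mem_erase hj)]
    rw [this, Function.update_self]
    have hz1' : z.cost ≤ (w i).cost - s ^ 2 := hz1
    linarith
  linarith

/-- `M` vanishes on the product of the `H i` as soon as `r` given functionals vanish. -/
def SRle (M : MultilinearMap F (fun _ : Fin d => V) F) (H : Fin d → Submodule F V) (r : ℕ) :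
    Prop :=
  ∃ (i : Fin r → Fin d) (lam : Fin r → Dual F V),
    ∀ v : Fin d → V, (∀ j, v j ∈ H j) → (∀ k, lam k (v (i k)) = 0) → M v = 0

theorem SRle.of_fintype {M : MultilinearMap F (fun _ : Fin d => V) F} {H : Fin d → Submodule F V}
    {κ : Type*} [Fintype κ] (i : κ → Fin d) (lam : κ → Dual F V)
    (h : ∀ v : Fin d → V, (∀ j, v j ∈ H j) → (∀ k, lam k (v (i k)) = 0) → M v = 0) :
    SRle M H (Fintype.card κ) := by
  let e := Fintype.equivFin κ
  refine ⟨i ∘ e.symm, lam ∘ e.symm, fun v hv hk => h v hv fun k => ?_⟩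
  simpa using hk (e k)

theorem Phi_le_of_SRle {M : MultilinearMap F (fun _ : Fin d => V) F} {H : Fin d → Submodule F V}
    {r : ℕ} (h : SRle M H r) : Phi M H ≤ r := by
  classical
  obtain ⟨i, lam, h⟩ := h
  let w : Fin d → WF F V := fun j => ⟨r, lam, fun k => if i k = j then 1 else 0⟩
  have hw : IsCover M H w := by
    intro v hv hlt
    refine h v hv fun k => ?_
    by_contra hne
    have h1 : (w (i k)).x k ≤ (w (i k)).om (v (i k)) := (w (i k)).le_om (k := k) hne
    have h2 : (w (i k)).x k = 1 := by simp [w]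
    rw [h2] at h1
    have h3 : (1 : ℝ) ≤ (w (i k)).om (v (i k)) := by exact_mod_cast h1
    have h4 := Finset.single_le_sum (f := fun j => ((w j).om (v j) : ℝ))
      (fun j _ => NNReal.coe_nonneg _) (Finset.mem_univ (i k))
    linarith
  refine (Phi_le hw).trans (le_of_eq ?_)
  change ∑ j : Fin d, ∑ k : Fin r, (((if i k = j then 1 else 0 : ℝ≥0)) : ℝ) ^ 2 = r
  rw [Finset.sum_comm]
  have : ∀ k : Fin r, ∑ j : Fin d, (((if i k = j then 1 else 0 : ℝ≥0)) : ℝ) ^ 2 = 1 := by
    intro k
    rw [Finset.sum_eq_single (i k)]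
    · simp
    · intro j _ hj
      simp [hj.symm]
    · simp
  simp [this]

/-- From vanishing to an explicit decomposition into slices. -/
theorem SRle.decomp {H : Fin d → Submodule F V} (r : ℕ) :
    ∀ M : MultilinearMap F (fun _ : Fin d => V) F, SRle M H r →
      ∃ (i : Fin r → Fin d) (lam : Fin r → Dual F V) (G : Fin r → (Fin d → V) → F),
        (∀ k v a, G k (Function.update v (i k) a) = G k v) ∧
        ∀ v : Fin d → V, (∀ j, v j ∈ H j) → M v = ∑ k, lam k (v (i k)) * G k v := by
  classical
  induction r with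
  | zero =>
    rintro M ⟨i, lam, h⟩
    exact ⟨i, lam, Fin.elim0, fun k => k.elim0, fun v hv => by
      simpa using h v hv (fun k => k.elim0)⟩
  | succ r ih =>
    rintro M ⟨i, lam, h⟩
    by_cases hex : ∃ u ∈ H (i 0), lam 0 u ≠ 0
    · obtain ⟨u0, hu0, hne⟩ := hex
      let u : V := (lam 0 u0)⁻¹ • u0
      have hu : u ∈ H (i 0) := (H _).smul_mem _ hu0
      have hlu : lam 0 u = 1 := by simp [u, hne]
      let π : V →ₗ[F] V := LinearMap.id - (lam 0).smulRight u
      have hπ : ∀ v, π v = v - lam 0 v • u := fun v => rfl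
      let P : Fin d → V →ₗ[F] V := Function.update (fun _ => LinearMap.id) (i 0) π
      have hP : ∀ v : Fin d → V, (fun j => P j (v j)) = Function.update v (i 0) (π (v (i 0))) := by
        intro v
        funext j
        by_cases hj : j = i 0
        · subst hj; simp [P]
        · simp [P, Function.update_of_ne hj]
      let M' := M.compLinearMap P
      have hM' : SRle M' H r := by
        refine ⟨fun k => i k.succ, fun k => lam k.succ ∘ₗ P (i k.succ), fun v hv hk => ?_⟩
        change M (fun j => P j (v j)) = 0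
        refine h _ ?_ ?_
        · intro j
          by_cases hj : j = i 0
          · subst hj
            simp only [P, Function.update_self, hπ]
            exact (H _).sub_mem (hv _) ((H _).smul_mem _ hu)
          · simpa [P, Function.update_of_ne hj] using hv j
        · intro k
          refine Fin.cases ?_ (fun k => ?_) k
          · simp [P, hπ, hlu]
          · exact hk k
      obtain ⟨i', lam', G', hG', hdec⟩ := ih M' hM'
      refine ⟨Fin.cons (i 0) i', Fin.cons (lam 0) lam',
        Fin.cons (fun v => M (Function.update v (i 0) u)) G', ?_, ?_⟩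
      · intro k
        refine Fin.cases ?_ (fun k => ?_) k
        · intro v a; simp
        · intro v a; simpa using hG' k v a
      · intro v hv
        rw [Fin.sum_univ_succ]
        simp only [Fin.cons_zero, Fin.cons_succ]
        rw [← hdec v hv]
        change M v = _ + M (fun j => P j (v j))
        rw [hP, hπ, M.map_update_sub, M.map_update_smul v (i 0) (lam 0 (v (i 0))) u]
        rw [Function.update_eq_self, smul_eq_mul]
        ring
    · push Not at hex
      have hM' : SRle M H r := by
        refine ⟨fun k => i k.succ, fun k => lam k.succ, fun v hv hk => h v hv fun k => ?_⟩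
        refine Fin.cases ?_ (fun k => ?_) k
        · exact hex _ (hv _)
        · exact hk k
      obtain ⟨i', lam', G', hG', hdec⟩ := ih M hM'
      refine ⟨Fin.cons (i 0) i', Fin.cons (lam 0) lam', Fin.cons (fun _ => 0) G', ?_, ?_⟩
      · intro k
        refine Fin.cases ?_ (fun k => ?_) k
        · intro v a; simp
        · intro v a; simpa using hG' k v a
      · intro v hv
        rw [Fin.sum_univ_succ]
        simp only [Fin.cons_zero, Fin.cons_succ]
        rw [← hdec v hv]
        simp

end Pool.Agent.Work.MP_898d8d_co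
end

-- merged part: Pool.Agent.Work.MP_898d8d_co.Main
section
/-!
The greedy argument and the link with finitely supported tensors.
-/

namespace Pool.Agent.Work.MP_898d8d_co

open scoped NNReal
open Module

variable {F : Type*} [Field F] {d : ℕ}

/-- Vectors supported in `J`. -/
def W (F : Type*) [Field F] (J : Finset ℕ) : Submodule F (ℕ → F) where
  carrier := {v | ∀ n ∉ J, v n = 0}
  add_mem' := by
    intro a b ha hb n hn
    simp [ha n hn, hb n hn]
  zero_mem' := by intro n _; rfl
  smul_mem' := by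
    intro c a ha n hn
    simp [ha n hn]

theorem mem_W {J : Finset ℕ} {v : ℕ → F} : v ∈ W F J ↔ ∀ n ∉ J, v n = 0 := Iff.rfl

theorem W_mono {J J' : Finset ℕ} (h : J ⊆ J') : W F J ≤ W F J' :=
  fun _ hv n hn => hv n fun hJ => hn (h hJ)

theorem single_mem_W {J : Finset ℕ} {n : ℕ} (h : n ∈ J) : (Pi.single n 1 : ℕ → F) ∈ W F J := by
  intro m hm
  have : m ≠ n := by rintro rfl; exact hm h
  simp [this]

theorem eq_sum_single {J : Finset ℕ} {v : ℕ → F} (hv : v ∈ W F J) :
    v = ∑ n ∈ J, v n • (Pi.single n 1 : ℕ → F) := by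
  funext m
  rw [Finset.sum_apply]
  by_cases hm : m ∈ J
  · rw [Finset.sum_eq_single m]
    · simp
    · intro b _ hb; simp [hb.symm]
    · intro h; exact absurd hm h
  · rw [hv m hm]
    symm
    refine Finset.sum_eq_zero fun b hb => ?_
    have : m ≠ b := by rintro rfl; exact hm hb
    simp [this]

theorem mem_span_single {J : Finset ℕ} {v : ℕ → F} (hv : v ∈ W F J) :
    v ∈ Submodule.span F {u : ℕ → F | ∃ n ∈ J, u = Pi.single n 1} := by
  rw [eq_sum_single hv]
  exact Submodule.sum_mem _ fun n hn =>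
    Submodule.smul_mem _ _ (Submodule.subset_span ⟨n, hn, rfl⟩)

instance W_finiteDimensional (J : Finset ℕ) : FiniteDimensional F (W F J) := by
  have hfin : {u : ℕ → F | ∃ n ∈ J, u = Pi.single n 1}.Finite := by
    refine (J.finite_toSet.image (fun n => (Pi.single n 1 : ℕ → F))).subset ?_
    rintro _ ⟨n, hn, rfl⟩
    exact ⟨n, hn, rfl⟩
  have := FiniteDimensional.span_of_finite F hfin
  exact Submodule.finiteDimensional_of_le (fun v hv => mem_span_single hv)

/-- If no one-step extension raises the potential, every box is covered cheaply. -/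
theorem stuck (hd : 0 < d) (M : MultilinearMap F (fun _ : Fin d => ℕ → F) F)
    (J : Fin d → Finset ℕ) {s : ℝ} (hs : 0 < s) (hsd : 3 * d * s = 1)
    (hstuck : ∀ a : Fin d → ℕ, Phi M (fun i => W F (insert (a i) (J i))) ≤
      Phi M (fun i => W F (J i)) + s ^ 2 / 2) (S : Fin d → Finset ℕ) :
    ∃ r : ℕ, SRle M (fun i => W F (S i)) r ∧
      r * s ^ 2 < Phi M (fun i => W F (J i)) + s ^ 2 / 2 := by
  classical
  have hs2 : 0 < s ^ 2 / 2 := by positivity
  set Φ := Phi M (fun i => W F (J i)) with hΦ
  obtain ⟨w, hw, hwc⟩ := exists_cover_lt hd M (fun i => W F (J i)) hs2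
  choose wa hwa hwac using fun a : Fin d → ℕ =>
    exists_cover_lt hd M (fun i => W F (insert (a i) (J i))) hs2
  have hwac' : ∀ a, tcost (wa a) < Φ + s ^ 2 := fun a => by
    have := hstuck a
    have := hwac a
    linarith
  -- one-direction extensions
  let J1 : Fin d → ℕ → Fin d → Finset ℕ := fun i n => Function.update J i (insert n (J i))
  have hJ1 : ∀ i n j, J j ⊆ J1 i n j := by
    intro i n j
    by_cases hj : j = i
    · subst hj; simp [J1]
    · simp [J1, Function.update_of_ne hj]
  have hJ1' : ∀ (a : Fin d → ℕ) i j, J1 i (a i) j ⊆ insert (a j) (J j) := by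
    intro a i j
    by_cases hj : j = i
    · subst hj; simp [J1]
    · simp [J1, Function.update_of_ne hj]
  have hΦ1 : ∀ i n, Φ ≤ Phi M (fun j => W F (J1 i n j)) := fun i n =>
    Phi_mono hd M fun j => W_mono (hJ1 i n j)
  have hcov1 : ∀ (a : Fin d → ℕ) i, IsCover M (fun j => W F (J1 i (a i) j)) (wa a) :=
    fun a i => (hwa a).mono fun j => W_mono (hJ1' a i j)
  have hlight : ∀ i n, n ∉ J i → ∃ v ∈ W F (insert n (J i)), v n = 1 ∧
      ((wa (fun _ => n) i).om v : ℝ) < s := by
    intro i n hn
    have := exists_light (H := fun j => W F (J j)) (hcov1 (fun _ => n) i)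
      (fun j => W_mono (hJ1 i n j)) i (LinearMap.proj n) (fun v hv => hv n hn)
      (e := Pi.single n 1) (single_mem_W (by simp [J1])) (by simp) hs (hwac' _)
    simpa [J1] using this
  choose! vv hvW hv1 hvl using hlight
  have hvl' : ∀ (a : Fin d → ℕ) i, a i ∉ J i → ((wa a i).om (vv i (a i)) : ℝ) < 3 * s := by
    intro a i hn
    have h1 := rigidity (H := fun j => W F (J1 i (a i) j)) (hcov1 (fun _ => a i) i) (hcov1 a i) hs
      ((hwac' _).trans_le (by linarith [hΦ1 i (a i)]))
      ((hwac' _).trans_le (by linarith [hΦ1 i (a i)])) i (v := vv i (a i))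
      (by simpa [J1] using hvW i (a i) hn)
    linarith [hvl i (a i) hn]
  let G : Fin d → Set (ℕ → F) := fun i =>
    {u | (u ∈ W F (J i) ∧ ((w i).om u : ℝ) < s) ∨ ∃ n ∉ J i, u = vv i n}
  have hG : ∀ u : Fin d → (ℕ → F), (∀ i, u i ∈ G i) → M u = 0 := by
    intro u hu
    have : ∀ i, ∃ n : ℕ, (u i ∈ W F (J i) ∧ ((w i).om (u i) : ℝ) < s) ∨
        (n ∉ J i ∧ u i = vv i n) := by
      intro i
      rcases hu i with h | ⟨n, hn, h⟩
      · exact ⟨0, Or.inl h⟩
      · exact ⟨n, Or.inr ⟨hn, h⟩⟩
    choose a ha using this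
    refine hwa a u ?_ ?_
    · intro i
      rcases ha i with h | ⟨hn, h⟩
      · exact W_mono (Finset.subset_insert _ _) h.1
      · rw [h]; exact hvW i (a i) hn
    · have hlt : ∀ i, ((wa a i).om (u i) : ℝ) < 3 * s := by
        intro i
        rcases ha i with h | ⟨hn, h⟩
        · have := rigidity hw ((hwa a).mono fun j => W_mono (Finset.subset_insert _ _)) hs
            (by linarith) (hwac' a) i h.1
          linarith [h.2]
        · rw [h]; exact hvl' a i hn
      have : ∑ i, ((wa a i).om (u i) : ℝ) < ∑ _i : Fin d, 3 * s :=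
        Finset.sum_lt_sum_of_nonempty ⟨⟨0, hd⟩, Finset.mem_univ _⟩ fun i _ => hlt i
      simp only [Finset.sum_const, Finset.card_univ, Fintype.card_fin, nsmul_eq_mul] at this
      linarith
  let π : Fin d → (ℕ → F) →ₗ[F] (ℕ → F) := fun i =>
    LinearMap.id - ∑ n ∈ S i \ J i, (LinearMap.proj n : (ℕ → F) →ₗ[F] F).smulRight (vv i n)
  have hπ : ∀ i v, π i v = v - ∑ n ∈ S i \ J i, v n • vv i n := by
    intro i v
    simp [π, LinearMap.sum_apply]
  have hπW : ∀ i, ∀ v ∈ W F (S i), π i v ∈ W F (J i) := by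
    intro i v hv m hm
    rw [hπ, Pi.sub_apply, Finset.sum_apply]
    have hz : ∀ n ∈ S i \ J i, n ≠ m → (v n • vv i n) m = 0 := by
      intro n hn hnm
      have := hvW i n (Finset.mem_sdiff.1 hn).2 m (by simp [hm, hnm.symm])
      simp [this]
    by_cases hmS : m ∈ S i
    · rw [Finset.sum_eq_single m]
      · simp [hv1 i m hm]
      · exact fun n hn hnm => hz n hn hnm
      · intro h; exact absurd (Finset.mem_sdiff.2 ⟨hmS, hm⟩) h
    · rw [hv m hmS, Finset.sum_eq_zero]
      · simp
      · intro n hn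
        refine hz n hn ?_
        rintro rfl
        exact hmS (Finset.mem_sdiff.1 hn).1
  let κ := Σ i : Fin d, {k : Fin (w i).n // s ≤ ((w i).x k : ℝ)}
  refine ⟨Fintype.card κ, SRle.of_fintype (κ := κ) (fun p => p.1)
    (fun p => (w p.1).lam p.2.1 ∘ₗ π p.1) ?_, ?_⟩
  · intro v hv hk
    refine vanish_of_span M G hG v fun i => ?_
    have h1 : v i = π i (v i) + ∑ n ∈ S i \ J i, v i n • vv i n := by rw [hπ]; abel
    rw [h1]
    refine Submodule.add_mem _ (Submodule.subset_span (Or.inl ⟨hπW i _ (hv i), ?_⟩))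
      (Submodule.sum_mem _ fun n hn => Submodule.smul_mem _ _
        (Submodule.subset_span (Or.inr ⟨n, (Finset.mem_sdiff.1 hn).2, rfl⟩)))
    have : (w i).om (π i (v i)) < (⟨s, hs.le⟩ : ℝ≥0) := by
      rw [WF.om_lt_iff _ _ (show (0 : ℝ≥0) < ⟨s, hs.le⟩ from hs)]
      intro k hk'
      by_contra hcon
      push Not at hcon
      exact hk' (hk ⟨i, k, hcon⟩)
    exact this
  · refine lt_of_le_of_lt ?_ hwc
    rw [Fintype.card_sigma]
    push_cast
    rw [Finset.sum_mul]
    refine Finset.sum_le_sum fun i _ => ?_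
    rw [Fintype.card_subtype]
    calc ((Finset.univ.filter fun k : Fin (w i).n => s ≤ ((w i).x k : ℝ)).card : ℝ) * s ^ 2
        = ∑ _k ∈ Finset.univ.filter fun k : Fin (w i).n => s ≤ ((w i).x k : ℝ), s ^ 2 := by
          simp
      _ ≤ ∑ k ∈ Finset.univ.filter fun k : Fin (w i).n => s ≤ ((w i).x k : ℝ),
            ((w i).x k : ℝ) ^ 2 := by
          refine Finset.sum_le_sum fun k hk => ?_
          have := (Finset.mem_filter.1 hk).2
          gcongr
      _ ≤ (w i).cost := Finset.sum_le_sum_of_subset_of_nonneg (Finset.filter_subset _ _)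
          fun _ _ _ => sq_nonneg _

/-- The multilinear form attached to a single position. -/
noncomputable def mono (F : Type*) [Field F] (x : Fin d → ℕ) :
    MultilinearMap F (fun _ : Fin d => ℕ → F) F :=
  (MultilinearMap.mkPiAlgebra F (Fin d) F).compLinearMap fun i => LinearMap.proj (x i)

/-- The multilinear form attached to a tensor. -/
noncomputable def form : Tensor F d →ₗ[F] MultilinearMap F (fun _ : Fin d => ℕ → F) F :=
  Finsupp.linearCombination F (mono F)

theorem form_single (T : Tensor F d) (y : Fin d → ℕ) :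
    form T (fun j => Pi.single (y j) 1) = T y := by
  classical
  have hm : ∀ x : Fin d → ℕ, mono F x (fun j => Pi.single (y j) 1) = if x = y then 1 else 0 := by
    intro x
    simp only [mono, MultilinearMap.compLinearMap_apply, MultilinearMap.mkPiAlgebra_apply,
      LinearMap.proj_apply]
    split_ifs with h
    · subst h; simp
    · obtain ⟨j, hj⟩ := Function.ne_iff.1 h
      exact Finset.prod_eq_zero (Finset.mem_univ j) (by simp [hj])
  simp only [form, Finsupp.linearCombination_apply, Finsupp.sum, sum_apply,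
    smul_apply, hm, smul_eq_mul, mul_ite, mul_one, mul_zero]
  rw [Finset.sum_ite_eq']
  split_ifs with h
  · rfl
  · exact (Finsupp.notMem_support_iff.1 h).symm

theorem restrict_apply (T : Tensor F d) (J : Fin d → Finset ℕ) (x : Fin d → ℕ) :
    restrict T J x = if ∀ i, x i ∈ J i then T x else 0 := by
  simp [restrict, Finsupp.filter_apply]

/-- A vanishing certificate yields a decomposition of the restricted tensor. -/
theorem mem_set_of_SRle (T : Tensor F d) (S : Fin d → Finset ℕ) {r : ℕ}
    (h : SRle (form T) (fun i => W F (S i)) r) :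
    ∃ R : Fin r → Tensor F d, (∀ k, IsSlice (R k)) ∧ restrict T S = ∑ k, R k := by
  classical
  obtain ⟨i, lam, G, hG, hdec⟩ := SRle.decomp r _ h
  let R : Fin r → Tensor F d := fun k => Finsupp.onFinset (Fintype.piFinset S)
    (fun x => if ∀ j, x j ∈ S j then
      lam k (Pi.single (x (i k)) 1) * G k (fun j => Pi.single (x j) 1) else 0)
    (by
      intro x hx
      rw [Fintype.mem_piFinset]
      by_contra hcon
      exact hx (if_neg hcon))
  refine ⟨R, ?_, ?_⟩
  · intro k
    refine ⟨i k, fun n => if n ∈ S (i k) then lam k (Pi.single n 1) else 0,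
      fun y => if ∀ j : {j : Fin d // j ≠ i k}, y j ∈ S j then
        G k (fun j => if h : j = i k then 0 else Pi.single (y ⟨j, h⟩) 1) else 0, ?_⟩
    intro x
    simp only [R, Finsupp.onFinset_apply]
    have hGx : G k (fun j => if h : j = i k then 0 else Pi.single (x j) 1) =
        G k (fun j => Pi.single (x j) 1) := by
      rw [← hG k (fun j => Pi.single (x j) 1) 0]
      congr 1
      funext j
      by_cases hj : j = i k
      · subst hj; simp
      · simp [hj]
    by_cases h1 : ∀ j, x j ∈ S j
    · rw [if_pos h1, if_pos (h1 _),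
        if_pos (fun j : {j : Fin d // j ≠ i k} => h1 j.1), hGx]
    · rw [if_neg h1]
      by_cases h2 : x (i k) ∈ S (i k)
      · rw [if_neg (c := ∀ j : {j : Fin d // j ≠ i k}, x j ∈ S j), mul_zero]
        intro h3
        apply h1
        intro j
        by_cases hj : j = i k
        · subst hj; exact h2
        · exact h3 ⟨j, hj⟩
      · rw [if_neg h2, zero_mul]
  · ext x
    rw [restrict_apply, Finsupp.finsetSum_apply]
    simp only [R, Finsupp.onFinset_apply]
    by_cases h1 : ∀ j, x j ∈ S j
    · simp only [if_pos h1]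
      rw [← form_single T x, hdec _ (fun j => single_mem_W (h1 j))]
    · simp [if_neg h1]

/-- A decomposition of the restricted tensor yields a vanishing certificate. -/
theorem SRle_of_decomp (T : Tensor F d) (J : Fin d → Finset ℕ) {r : ℕ}
    (R : Fin r → Tensor F d) (hR : ∀ k, IsSlice (R k)) (hT : restrict T J = ∑ k, R k) :
    SRle (form T) (fun i => W F (J i)) r := by
  classical
  choose i f g hfg using hR
  let lam : Fin r → Dual F (ℕ → F) := fun k =>
    ∑ n ∈ J (i k), f k n • (LinearMap.proj n : (ℕ → F) →ₗ[F] F)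
  have hlam : ∀ k v, lam k v = ∑ n ∈ J (i k), f k n * v n := by
    intro k v
    simp [lam, LinearMap.sum_apply]
  refine ⟨i, lam, fun v hv hk => ?_⟩
  have h1 : (form T - form (restrict T J)) v = 0 := by
    refine vanish_of_span _ (fun j => {u : ℕ → F | ∃ n ∈ J j, u = Pi.single n 1}) ?_ v
      (fun j => mem_span_single (hv j))
    intro u hu
    choose y hy hyu using hu
    have : u = fun j => Pi.single (y j) 1 := funext hyu
    rw [this, sub_apply, form_single, form_single, restrict_apply, if_pos hy,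
      sub_self]
  rw [sub_apply, sub_eq_zero] at h1
  rw [h1, hT, map_sum, sum_apply]
  refine Finset.sum_eq_zero fun k _ => ?_
  refine vanish_of_span _ (fun j => {u : ℕ → F | (j = i k ∧ u = v j) ∨
    (j ≠ i k ∧ ∃ n ∈ J j, u = Pi.single n 1)}) ?_ v ?_
  · intro u hu
    have : ∀ j, ∃ n : ℕ, j ≠ i k → u j = Pi.single n 1 := by
      intro j
      rcases hu j with h | ⟨_, n, _, h⟩
      · exact ⟨0, fun h' => absurd h.1 h'⟩
      · exact ⟨n, fun _ => h⟩
    choose y hy using this
    have hui : u (i k) = v (i k) := by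
      rcases hu (i k) with h | h
      · exact h.2
      · exact absurd rfl h.1
    have hu' : u = Function.update (fun j => (Pi.single (y j) 1 : ℕ → F)) (i k)
        (∑ n ∈ J (i k), v (i k) n • (Pi.single n 1 : ℕ → F)) := by
      funext j
      by_cases hj : j = i k
      · subst hj
        rw [Function.update_self, hui]
        exact eq_sum_single (hv _)
      · rw [Function.update_of_ne hj, hy j hj]
    rw [hu', MultilinearMap.map_update_sum]
    have : ∀ n, form (R k) (Function.update (fun j => (Pi.single (y j) 1 : ℕ → F)) (i k)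
        (v (i k) n • (Pi.single n 1 : ℕ → F))) =
        f k n * v (i k) n * g k (fun j => y j) := by
      intro n
      rw [MultilinearMap.map_update_smul]
      have h2 : Function.update (fun j => (Pi.single (y j) 1 : ℕ → F)) (i k) (Pi.single n 1) =
          fun j => Pi.single (Function.update y (i k) n j) 1 := by
        funext j
        by_cases hj : j = i k
        · subst hj; simp
        · simp [Function.update_of_ne hj]
      rw [h2, form_single, hfg]
      have h3 : (fun j : {j : Fin d // j ≠ i k} => Function.update y (i k) n j) =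
          fun j : {j : Fin d // j ≠ i k} => y j := by
        funext j
        rw [Function.update_of_ne j.2]
      rw [h3]
      simp only [Function.update_self, smul_eq_mul]
      ring
    simp only [this]
    rw [← Finset.sum_mul, ← hlam, hk k, zero_mul]
  · intro j
    by_cases hj : j = i k
    · exact Submodule.subset_span (Or.inl ⟨hj, rfl⟩)
    · refine Submodule.span_mono ?_ (mem_span_single (hv j))
      intro u hu
      exact Or.inr ⟨hj, hu⟩

theorem sliceRank_le_of_SRle (T : Tensor F d) (S : Fin d → Finset ℕ) {r : ℕ}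
    (h : SRle (form T) (fun i => W F (S i)) r) : sliceRank (restrict T S) ≤ r :=
  Nat.sInf_le (mem_set_of_SRle T S h)

theorem Phi_le_sliceRank (hd : 0 < d) (T : Tensor F d) (J : Fin d → Finset ℕ) :
    Phi (form T) (fun i => W F (J i)) ≤ sliceRank (restrict T J) := by
  classical
  have h0 : SRle (form T) (fun i => W F (J i)) (Fintype.card (J ⟨0, hd⟩)) := by
    refine SRle.of_fintype (κ := J ⟨0, hd⟩) (fun _ => ⟨0, hd⟩)
      (fun n => LinearMap.proj n.1) fun v hv hk => ?_
    apply (form T).map_coord_zero ⟨0, hd⟩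
    funext n
    by_cases hn : n ∈ J ⟨0, hd⟩
    · exact hk ⟨n, hn⟩
    · exact hv _ n hn
  have hne : {r : ℕ | ∃ S : Fin r → Tensor F d, (∀ k, IsSlice (S k)) ∧
      restrict T J = ∑ k, S k}.Nonempty := ⟨_, mem_set_of_SRle T J h0⟩
  obtain ⟨R, hR, hT⟩ := Nat.sInf_mem hne
  exact Phi_le_of_SRle (SRle_of_decomp T J R hR hT)

theorem exists_core (hd : 0 < d) (T : Tensor F d) (k : ℕ) (hk : k ≤ sliceRank T) :
    ∃ J : Fin d → Finset ℕ, (∀ i, (J i).card ≤ k) ∧
      k ≤ 18 * d ^ 2 * sliceRank (restrict T J) := by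
  classical
  have hd' : (0 : ℝ) < d := by exact_mod_cast hd
  let s : ℝ := 1 / (3 * d)
  have hs : 0 < s := by positivity
  have hsd : 3 * d * s = 1 := by simp only [s]; field_simp
  let S : Fin d → Finset ℕ := fun i => T.support.image fun x => x i
  have hS : restrict T S = T := by
    ext x
    rw [restrict_apply]
    split_ifs with h
    · rfl
    · by_contra hne
      apply h
      intro i
      exact Finset.mem_image.2 ⟨x, Finsupp.mem_support_iff.2 (fun h0 => hne h0.symm), rfl⟩
  have greedy : ∀ k : ℕ, k ≤ sliceRank T → ∃ J : Fin d → Finset ℕ, (∀ i, (J i).card ≤ k) ∧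
      k * (s ^ 2 / 2) ≤ Phi (form T) (fun i => W F (J i)) := by
    intro k
    induction k with
    | zero =>
      intro _
      exact ⟨fun _ => ∅, fun _ => by simp, by simpa using Phi_nonneg _ _⟩
    | succ k ih =>
      intro hk
      obtain ⟨J, hJ, hΦ⟩ := ih (by omega)
      by_cases hst : ∀ a : Fin d → ℕ, Phi (form T) (fun i => W F (insert (a i) (J i))) ≤
          Phi (form T) (fun i => W F (J i)) + s ^ 2 / 2
      · obtain ⟨r, hr, hr'⟩ := stuck hd (form T) J hs hsd hst S
        have h1 := sliceRank_le_of_SRle T S hr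
        rw [hS] at h1
        refine ⟨J, fun i => (hJ i).trans (by omega), ?_⟩
        have h2 : ((k + 1 : ℕ) : ℝ) ≤ r := by exact_mod_cast hk.trans h1
        have h3 : (1 : ℝ) ≤ ((k + 1 : ℕ) : ℝ) := by exact_mod_cast Nat.succ_le_succ (Nat.zero_le k)
        have h4 : 0 < s ^ 2 := by positivity
        nlinarith
      · push Not at hst
        obtain ⟨a, ha⟩ := hst
        refine ⟨fun i => insert (a i) (J i), fun i => (Finset.card_insert_le _ _).trans
          (Nat.succ_le_succ (hJ i)), ?_⟩
        push_cast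
        linarith
  obtain ⟨J, hJ, hΦ⟩ := greedy k hk
  refine ⟨J, hJ, ?_⟩
  have h1 := hΦ.trans (Phi_le_sliceRank hd T J)
  have h2 : s ^ 2 / 2 * (18 * d ^ 2) = 1 := by simp only [s]; field_simp; norm_num
  have h3 : (k : ℝ) ≤ 18 * d ^ 2 * sliceRank (restrict T J) := by
    have h4 : (0 : ℝ) < 18 * d ^ 2 := by positivity
    calc (k : ℝ) = k * (s ^ 2 / 2) * (18 * d ^ 2) := by rw [mul_assoc, h2, mul_one]
      _ ≤ sliceRank (restrict T J) * (18 * d ^ 2) := by gcongr
      _ = _ := by ring
  exact_mod_cast h3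

end Pool.Agent.Work.MP_898d8d_co
end
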