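import Pool.Agent.Work.MP_898d8d_co.Defs

namespace Pool.Agent.Work.MP_898d8d_co

/-- `T` has the form `f (x restricted to S) * g (x restricted to the complement of S)` for some
nonempty proper subset `S` of the coordinates. -/
def IsPart {F : Type*} [Field F] {d : ℕ} (T : Tensor F d) : Prop :=
  ∃ (S : Finset (Fin d)) (f : ({j : Fin d // j ∈ S} → ℕ) → F)
    (g : ({j : Fin d // j ∉ S} → ℕ) → F), S.Nonempty ∧ S ≠ Finset.univ ∧
    ∀ x : Fin d → ℕ, T x = f (fun j => x j) * g (fun j => x j)

/-- The partition rank of `T`: the least `r` such that `T` is a sum of `r` tensors satisfying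
`IsPart`. -/
noncomputable def partitionRank {F : Type*} [Field F] {d : ℕ} (T : Tensor F d) : ℕ :=
  sInf {r : ℕ | ∃ S : Fin r → Tensor F d, (∀ k, IsPart (S k)) ∧ T = ∑ k, S k}

end Pool.Agent.Work.MP_898d8d_co
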