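import Pool.Agent.Work.MP_898d8d_co.Main

namespace Pool.Agent.Results.MP_898d8d_co.SliceRankCore

open Pool.Agent.Work.MP_898d8d_co

/-- Linear core property of slice rank, over every field and in every order `d ≥ 2`:
for each `k` up to the slice rank of `T` there is a box with sides of size at most `k`
on which the slice rank is at least `k / (18 d ^ 2)`. -/
theorem result {F : Type*} [Field F] {d : ℕ} (hd : 2 ≤ d) (T : Tensor F d) (k : ℕ)
    (hk : k ≤ sliceRank T) :
    ∃ J : Fin d → Finset ℕ, (∀ i, (J i).card ≤ k) ∧
      k ≤ 18 * d ^ 2 * sliceRank (restrict T J) :=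
  exists_core (by omega) T k hk

end Pool.Agent.Results.MP_898d8d_co.SliceRankCore
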